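import Mathlib
import Pool.Agent.Lib.Recon.Final

/-!
The deterministic part of the counting theorem (MP_552896_co): if all induced embeddings of
`G` minus three vertices move few vertices and few vertices have near twins then the truncated
clique lattice of `G` is reconstructible.
-/

set_option autoImplicit false
set_option linter.unusedSectionVars false

namespace Pool.Agent.Cnt

open Finset Classical Pool.Agent.Lib.Recon

variable {V : Type*} [Fintype V]

/-- The number of vertices which distinguish `x` and `y`. -/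
noncomputable def ds (G : SimpleGraph V) (x y : V) : ℕ :=
  (univ.filter (fun z => z ≠ x ∧ z ≠ y ∧ ¬ (G.Adj x z ↔ G.Adj y z))).card

/-- Every induced embedding of `G` minus three vertices moves at most `k` vertices. -/
def P1 (G : SimpleGraph V) (k : ℕ) : Prop :=
  ∀ (M : Finset V), M.card = 3 → ∀ g : V → V, (∀ x y, x ∉ M → y ∉ M → g x = g y → x = y) →
    (∀ x y, x ∉ M → y ∉ M → (G.Adj x y ↔ G.Adj (g x) (g y))) →
    (univ.filter (fun x => x ∉ M ∧ g x ≠ x)).card ≤ k

/-- The vertices with a near twin. -/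
noncomputable def nt (G : SimpleGraph V) (k : ℕ) : Finset V :=
  univ.filter (fun x => ∃ y, y ≠ x ∧ ds G x y ≤ k)

/-- Few vertices have a near twin. -/
def P2 (G : SimpleGraph V) (k : ℕ) : Prop := 2 * (nt G k).card + 3 ≤ Fintype.card V

lemma ds_comm (G : SimpleGraph V) (x y : V) : ds G x y = ds G y x := by
  unfold ds
  congr 1
  ext z
  simp only [mem_filter, mem_univ, true_and]
  constructor
  · rintro ⟨a, b, c⟩; exact ⟨b, a, fun h => c h.symm⟩
  · rintro ⟨a, b, c⟩; exact ⟨b, a, fun h => c h.symm⟩

/-- A small set of features which separates whatever can be separated. -/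
lemma exists_sep {F : Type*} (W : Finset V) (Z : Finset F) (r : V → F → Prop) :
    ∃ D ⊆ Z, D.card ≤ W.card ∧ ∀ w ∈ W, ∀ w' ∈ W, (∀ z ∈ D, r w z ↔ r w' z) →
      ∀ z ∈ Z, r w z ↔ r w' z := by
  let c : Finset F → ℕ := fun D => (W.image (fun w => D.filter (fun z => r w z))).card
  have hne : ((Z.powerset).filter (fun D => D.card ≤ c D)).Nonempty :=
    ⟨∅, mem_filter.mpr ⟨empty_mem_powerset _, by simp⟩⟩
  obtain ⟨D, hD, hmax⟩ := exists_max_image _ (fun D => D.card) hne
  obtain ⟨hDZ, hDc⟩ := mem_filter.mp hD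
  rw [mem_powerset] at hDZ
  refine ⟨D, hDZ, hDc.trans card_image_le, ?_⟩
  intro w hw w' hw' heq
  by_contra hcon
  push Not at hcon
  obtain ⟨z, hz, hzr⟩ := hcon
  have hzD : z ∉ D := by
    intro hzD
    have := heq z hzD
    tauto
  have hlt : c D < c (insert z D) := by
    have himg : W.image (fun w => D.filter (fun z => r w z)) =
        (W.image (fun w => (insert z D).filter (fun z => r w z))).image (fun E => E.erase z) := by
      rw [image_image]
      apply image_congr
      intro v _
      ext y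
      simp only [Function.comp_apply, mem_filter, mem_erase, mem_insert]
      constructor
      · rintro ⟨a, b⟩
        exact ⟨fun h => hzD (h ▸ a), Or.inr a, b⟩
      · rintro ⟨a, b, c⟩
        exact ⟨b.resolve_left a, c⟩
    show (W.image (fun w => D.filter (fun z => r w z))).card < _
    rw [himg]
    refine lt_of_le_of_ne card_image_le ?_
    intro hcard
    have hinj := card_image_iff.mp hcard
    have h1 : (insert z D).filter (fun z => r w z) = (insert z D).filter (fun z => r w' z) := by
      apply hinj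
      · exact mem_coe.mpr (mem_image_of_mem _ hw)
      · exact mem_coe.mpr (mem_image_of_mem _ hw')
      · ext y
        simp only [mem_filter, mem_erase, mem_insert]
        constructor
        · rintro ⟨a, b, c⟩
          exact ⟨a, b, (heq y (b.resolve_left a)).mp c⟩
        · rintro ⟨a, b, c⟩
          exact ⟨a, b, (heq y (b.resolve_left a)).mpr c⟩
    have h2 : z ∈ (insert z D).filter (fun z => r w z) ↔
        z ∈ (insert z D).filter (fun z => r w' z) := by rw [h1]
    simp only [mem_filter, mem_insert, true_or, true_and] at h2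
    tauto
  have h3 : insert z D ∈ (Z.powerset).filter (fun D => D.card ≤ c D) := by
    refine mem_filter.mpr ⟨mem_powerset.mpr (insert_subset hz hDZ), ?_⟩
    rw [card_insert_of_notMem hzD]
    omega
  have h4 := hmax _ h3
  rw [card_insert_of_notMem hzD] at h4
  omega

/-- Under (P1) and (P2) there are three vertices such that every induced embedding of the rest
extends to an automorphism. -/
lemma exists_M (G : SimpleGraph V) (k : ℕ) (h1 : P1 G k) (h2 : P2 G (k + 3)) :
    ∃ M : Finset V, M.card = 3 ∧ (∀ x ∈ M, x ∉ nt G (k + 3)) ∧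
      ∀ g : V → V, (∀ x y, x ∉ M → y ∉ M → g x = g y → x = y) →
        (∀ x y, x ∉ M → y ∉ M → (G.Adj x y ↔ G.Adj (g x) (g y))) →
        ∃ α : V ≃ V, (∀ x y, G.Adj x y ↔ G.Adj (α x) (α y)) ∧ ∀ x, x ∉ M → α x = g x := by
  set W := nt G (k + 3) with hW
  obtain ⟨D, hDZ, hDc, hD⟩ := exists_sep W Wᶜ (fun w z => G.Adj w z)
  have hcard : 3 ≤ ((W ∪ D)ᶜ : Finset V).card := by
    rw [card_compl]
    have h3 := card_union_le W D
    have h4 : 2 * W.card + 3 ≤ Fintype.card V := h2
    omega
  obtain ⟨M, hMsub, hM3⟩ := exists_subset_card_eq hcard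
  have hMW : ∀ x ∈ M, x ∉ W := fun x hx hxW =>
    (mem_compl.mp (hMsub hx)) (mem_union_left _ hxW)
  have hMD : ∀ x ∈ M, x ∉ D := fun x hx hxD =>
    (mem_compl.mp (hMsub hx)) (mem_union_right _ hxD)
  refine ⟨M, hM3, hMW, ?_⟩
  intro g hinj hadj
  have hmov := h1 M hM3 g hinj hadj
  -- moved vertices are in `W`
  have hmoved : ∀ a, a ∉ M → g a ≠ a → a ∈ W ∧ g a ∈ W := by
    intro a ha hga
    have hd : ds G a (g a) ≤ k + 3 := by
      unfold ds
      have hsub : univ.filter (fun z => z ≠ a ∧ z ≠ g a ∧ ¬ (G.Adj a z ↔ G.Adj (g a) z)) ⊆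
          univ.filter (fun x => x ∉ M ∧ g x ≠ x) ∪ M := by
        intro z hz
        obtain ⟨_, hza, hzg, hz2⟩ := mem_filter.mp hz
        by_cases hzM : z ∈ M
        · exact mem_union_right _ hzM
        · refine mem_union_left _ (mem_filter.mpr ⟨mem_univ _, hzM, ?_⟩)
          intro hfix
          apply hz2
          rw [hadj a z ha hzM, hfix]
      refine (card_le_card hsub).trans ((card_union_le _ _).trans ?_)
      omega
    refine ⟨mem_filter.mpr ⟨mem_univ _, g a, hga, hd⟩,
      mem_filter.mpr ⟨mem_univ _, a, Ne.symm hga, ?_⟩⟩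
    rw [ds_comm]; exact hd
  have hfix : ∀ a, a ∉ M → a ∉ W → g a = a := by
    intro a ha haW
    by_contra hcon
    exact haW (hmoved a ha hcon).1
  have hWM : ∀ w ∈ W, w ∉ M := fun w hw hwM => hMW w hwM hw
  have hWW : ∀ w ∈ W, g w ∈ W := by
    intro w hw
    by_cases hgw : g w = w
    · rw [hgw]; exact hw
    · exact (hmoved w (hWM w hw) hgw).2
  -- the extension
  let h : V → V := fun x => if x ∈ M then x else g x
  have hM' : ∀ x ∈ M, h x = x := fun x hx => if_pos hx
  have hg' : ∀ x, x ∉ M → h x = g x := fun x hx => if_neg hx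
  have hgM : ∀ x, x ∉ M → g x ∉ M := by
    intro x hx hgx
    by_cases hgx' : g x = x
    · rw [hgx'] at hgx; exact hx hgx
    · exact hMW _ hgx (hmoved x hx hgx').2
  have hinj' : Function.Injective h := by
    intro x y hxy
    by_cases hx : x ∈ M <;> by_cases hy : y ∈ M
    · rw [hM' x hx, hM' y hy] at hxy; exact hxy
    · rw [hM' x hx, hg' y hy] at hxy
      exact absurd (hxy ▸ hx) (hgM y hy)
    · rw [hg' x hx, hM' y hy] at hxy
      exact absurd (hxy ▸ hy) (hgM x hx)
    · rw [hg' x hx, hg' y hy] at hxy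
      exact hinj x y hx hy hxy
  have hbij : Function.Bijective h := Finite.injective_iff_bijective.mp hinj'
  -- adjacency between `M` and the rest
  have hMadj : ∀ x ∈ M, ∀ y, y ∉ M → (G.Adj x y ↔ G.Adj x (g y)) := by
    intro x hx y hy
    by_cases hyW : y ∈ W
    · have h5 := hD y hyW (g y) (hWW y hyW) (by
        intro z hz
        have hzW : z ∉ W := mem_compl.mp (hDZ hz)
        have hzM : z ∉ M := fun hzM => hMD z hzM hz
        rw [hadj y z hy hzM, hfix z hzM hzW]) x (mem_compl.mpr (hMW x hx))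
      rw [G.adj_comm x y, G.adj_comm x (g y)]
      exact h5
    · rw [hfix y hy hyW]
  refine ⟨Equiv.ofBijective h hbij, ?_, fun x hx => hg' x hx⟩
  intro x y
  show G.Adj x y ↔ G.Adj (h x) (h y)
  by_cases hx : x ∈ M <;> by_cases hy : y ∈ M
  · rw [hM' x hx, hM' y hy]
  · rw [hM' x hx, hg' y hy]; exact hMadj x hx y hy
  · rw [hg' x hx, hM' y hy, G.adj_comm x y, G.adj_comm (g x) y]; exact hMadj y hy x hx
  · rw [hg' x hx, hg' y hy]; exact hadj x y hx hy

/-- The deterministic part. -/
theorem struct (G : SimpleGraph V) (k : ℕ) (h1 : P1 G k) (h2 : P2 G (k + 3)) {W : Type*}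
    [Fintype W] (H : SimpleGraph W) (f : V ≃ W)
    (hdeck : ∀ v : V,
      Nonempty ({s : Finset V // s.Nonempty ∧ G.IsClique (s : Set V) ∧ v ∉ s} ≃o
        {t : Finset W // t.Nonempty ∧ H.IsClique (t : Set W) ∧ f v ∉ t})) :
    Nonempty ({s : Finset V // s.Nonempty ∧ G.IsClique (s : Set V)} ≃o
      {t : Finset W // t.Nonempty ∧ H.IsClique (t : Set W)}) := by
  obtain ⟨M, hM3, hMW, hM⟩ := exists_M G k h1 h2
  -- two vertices of `M` are distinguished by a vertex outside `M`
  have hdist : ∀ u ∈ M, ∀ v ∈ M, (∀ a, a ∉ M → (G.Adj a u ↔ G.Adj a v)) → u = v := by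
    intro u hu v hv h
    by_contra hne
    apply hMW u hu
    refine mem_filter.mpr ⟨mem_univ _, v, fun h => hne h.symm, ?_⟩
    unfold ds
    have hsub : univ.filter (fun z => z ≠ u ∧ z ≠ v ∧ ¬ (G.Adj u z ↔ G.Adj v z)) ⊆ M := by
      intro z hz
      obtain ⟨_, _, _, hz2⟩ := mem_filter.mp hz
      by_contra hzM
      apply hz2
      rw [G.adj_comm u z, G.adj_comm v z]
      exact h z hzM
    have := card_le_card hsub
    omega
  have hall : ∀ φ : G.induce ((M : Set V)ᶜ) ↪g G, ∃ α : G ≃g G, ∀ a : ((M : Set V)ᶜ : Set V),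
      φ a = α a := by
    intro φ
    let g : V → V := fun x => if hx : x ∈ M then x else φ ⟨x, by simpa using hx⟩
    have hg : ∀ (x : V) (hx : x ∉ M), g x = φ ⟨x, by simpa using hx⟩ := fun x hx => dif_neg hx
    obtain ⟨α, hα, hαg⟩ := hM g (by
      intro x y hx hy hxy
      rw [hg x hx, hg y hy] at hxy
      exact congrArg Subtype.val (φ.injective hxy)) (by
      intro x y hx hy
      rw [hg x hx, hg y hy]
      have := φ.map_rel_iff' (a := ⟨x, by simpa using hx⟩) (b := ⟨y, by simpa using hy⟩)
      exact this.symm)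
    refine ⟨⟨α, fun {x y} => (hα x y).symm⟩, fun a => ?_⟩
    have ha : (a : V) ∉ M := fun h => a.2 (by exact_mod_cast h)
    show φ a = α a
    rw [hαg a ha, hg a ha]
  apply master_clique G H ((M : Set V)ᶜ) 1 _ _ _ f hdeck
  · intro u v hu hv h w hwu hwv
    have hu' : u ∈ M := by simpa using hu
    have hv' : v ∈ M := by simpa using hv
    rw [hdist u hu' v hv' (fun a ha => h a (by simpa using ha))]
  · intro u hu
    have hu' : u ∈ M := by simpa using hu
    rw [Nat.card_eq_fintype_card]
    rw [Fintype.card_le_one_iff]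
    rintro ⟨a, ha1, ha2⟩ ⟨b, hb1, hb2⟩
    have ha' : a ∈ M := by simpa using ha1
    have hb' : b ∈ M := by simpa using hb1
    have e1 := hdist u hu' a ha' (fun x hx => ha2 x (by simpa using hx))
    have e2 := hdist u hu' b hb' (fun x hx => hb2 x (by simpa using hx))
    apply Subtype.ext
    exact e1.symm.trans e2
  · have hcard : Nat.card {v // v ∉ ((M : Set V)ᶜ)} = 3 := by
      rw [Nat.card_eq_fintype_card, Fintype.card_subtype]
      rw [← hM3]
      congr 1
      ext x
      simp
    have he : Nat.card {φ : G.induce ((M : Set V)ᶜ) ↪g G //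
        ∃ α : G ≃g G, ∀ a : ((M : Set V)ᶜ : Set V), φ a = α a} =
        Nat.card (G.induce ((M : Set V)ᶜ) ↪g G) := by
      apply Nat.card_congr
      exact Equiv.subtypeUnivEquiv hall
    rw [hcard, he]
    have hfin : Finite (G.induce ((M : Set V)ᶜ) ↪g G) :=
      Finite.of_injective (fun φ => (φ : ((M : Set V)ᶜ : Set V) → V)) DFunLike.coe_injective
    have hpos : 0 < Nat.card (G.induce ((M : Set V)ᶜ) ↪g G) := by
      have : Nonempty (G.induce ((M : Set V)ᶜ) ↪g G) := ⟨SimpleGraph.Embedding.induce _⟩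
      exact Nat.card_pos
    have hp : 0 < Nat.card (G.induce ((M : Set V)ᶜ) ↪g G) ^ 2 := by positivity
    rw [mul_pow]
    exact Nat.mul_lt_mul_of_pos_right (by norm_num) hp

end Pool.Agent.Cnt
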