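import Mathlib
import Pool.Agent.Cnt.Struct

/-!
Few graphs have an induced embedding of all but three vertices moving many vertices
(MP_552896_co).
-/

set_option autoImplicit false
set_option linter.unusedSectionVars false

namespace Pool.Agent.Cnt

open Finset Classical

variable {V : Type*} [Fintype V]

/-- The pairs of distinct vertices. -/
noncomputable def prs (V : Type*) [Fintype V] : Finset (Sym2 V) := univ.filter (fun e => ¬ e.IsDiag)

lemma mem_prs {e : Sym2 V} : e ∈ prs V ↔ ¬ e.IsDiag := by simp [prs]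

lemma card_prs : (prs V).card = (Fintype.card V).choose 2 := by
  rw [← Sym2.card_subtype_not_diag, Fintype.card_subtype]
  rfl

/-- If the adjacency of the graphs of a family is determined by the pairs outside `P` then the
family is small. -/
lemma card_le_of_det' (F : Finset (SimpleGraph V)) (P : Finset (Sym2 V))
    (h : ∀ G ∈ F, ∀ G' ∈ F, (∀ e ∈ prs V, e ∉ P → (e ∈ G.edgeSet ↔ e ∈ G'.edgeSet)) → G = G') :
    F.card ≤ 2 ^ (prs V \ P).card := by
  rw [← card_powerset]
  refine card_le_card_of_injOn (fun G => (prs V \ P).filter (fun e => e ∈ G.edgeSet)) ?_ ?_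
  · intro G _
    exact mem_coe.mpr (mem_powerset.mpr (filter_subset _ _))
  · intro G hG G' hG' heq
    apply h G (mem_coe.mp hG) G' (mem_coe.mp hG')
    intro e he heP
    have h2 : e ∈ (prs V \ P).filter (fun e => e ∈ G.edgeSet) ↔
        e ∈ (prs V \ P).filter (fun e => e ∈ G'.edgeSet) := by
      simp only at heq
      rw [heq]
    simp only [mem_filter, mem_sdiff, he, heP, not_false_eq_true, and_self, true_and] at h2
    exact h2

lemma card_le_of_det (F : Finset (SimpleGraph V)) (P : Finset (Sym2 V)) (hP : P ⊆ prs V)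
    (h : ∀ G ∈ F, ∀ G' ∈ F, (∀ e ∈ prs V, e ∉ P → (e ∈ G.edgeSet ↔ e ∈ G'.edgeSet)) → G = G') :
    F.card * 2 ^ P.card ≤ 2 ^ (Fintype.card V).choose 2 := by
  calc F.card * 2 ^ P.card ≤ 2 ^ (prs V \ P).card * 2 ^ P.card :=
        Nat.mul_le_mul_right _ (card_le_of_det' F P h)
    _ = 2 ^ (Fintype.card V).choose 2 := by
      rw [← pow_add, card_sdiff_add_card_eq_card hP, card_prs]

/-- The graphs for which `g` is an induced embedding off `M`. -/
noncomputable def emb (M : Finset V) (g : V → V) : Finset (SimpleGraph V) :=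
  univ.filter (fun G => ∀ x y, x ∉ M → y ∉ M → (G.Adj x y ↔ G.Adj (g x) (g y)))

lemma emb_det (M : Finset V) (g : V → V) (hinj : ∀ x y, x ∉ M → y ∉ M → g x = g y → x = y)
    (P : Finset (Sym2 V)) (hP : P ⊆ prs V) (hPM : ∀ e ∈ P, ∀ x ∈ e, x ∉ M) (ρ : Sym2 V → ℕ)
    (hρ : ∀ e ∈ P, ρ (e.map g) < ρ e) :
    (emb M g).card * 2 ^ P.card ≤ 2 ^ (Fintype.card V).choose 2 := by
  apply card_le_of_det _ _ hP
  intro G hG G' hG' heq
  have hmem : ∀ K ∈ emb M g, ∀ e ∈ P, (e ∈ K.edgeSet ↔ e.map g ∈ K.edgeSet) := by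
    intro K hK e he
    have hM := hPM e he
    induction e using Sym2.ind with
    | _ x y =>
      rw [Sym2.map_mk, SimpleGraph.mem_edgeSet, SimpleGraph.mem_edgeSet]
      exact (mem_filter.mp hK).2 x y (hM x (Sym2.mem_mk_left x y)) (hM y (Sym2.mem_mk_right x y))
  have hnd : ∀ e ∈ P, e.map g ∈ prs V := by
    intro e he
    have hM := hPM e he
    have hd := mem_prs.mp (hP he)
    induction e using Sym2.ind with
    | _ x y =>
      rw [Sym2.map_mk, mem_prs, Sym2.mk_isDiag_iff]
      intro h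
      apply hd
      rw [Sym2.mk_isDiag_iff]
      exact hinj x y (hM x (Sym2.mem_mk_left x y)) (hM y (Sym2.mem_mk_right x y)) h
  have key : ∀ m : ℕ, ∀ e ∈ prs V, ρ e = m → (e ∈ G.edgeSet ↔ e ∈ G'.edgeSet) := by
    intro m
    induction m using Nat.strong_induction_on with
    | _ m ih =>
      intro e he hem
      by_cases heP : e ∈ P
      · rw [hmem G hG e heP, hmem G' hG' e heP]
        have := hρ e heP
        exact ih _ (by omega) _ (hnd e heP) rfl
      · exact heq e he heP
  ext x y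
  rw [← SimpleGraph.mem_edgeSet, ← SimpleGraph.mem_edgeSet]
  by_cases hxy : x = y
  · subst hxy
    simp
  · exact key _ s(x, y) (mem_prs.mpr (by rw [Sym2.mk_isDiag_iff]; exact hxy)) rfl

lemma emb_card (M : Finset V) (hM : M.card = 3) (g : V → V)
    (hinj : ∀ x y, x ∉ M → y ∉ M → g x = g y → x = y) (k p : ℕ)
    (hk : k < (univ.filter (fun x => x ∉ M ∧ g x ≠ x)).card)
    (hp : 2 * p ≤ (k + 1) * (Fintype.card V - 5 - k)) :
    (emb M g).card * 2 ^ p ≤ 2 ^ (Fintype.card V).choose 2 := by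
  obtain ⟨K, hKsub, hKcard⟩ := exists_subset_card_eq (n := k + 1) (by omega :
    k + 1 ≤ (univ.filter (fun x => x ∉ M ∧ g x ≠ x)).card)
  have hKM : ∀ x ∈ K, x ∉ M := fun x hx => (mem_filter.mp (hKsub hx)).2.1
  have hKg : ∀ x ∈ K, g x ≠ x := fun x hx => (mem_filter.mp (hKsub hx)).2.2
  -- the pairs
  set R := (K ×ˢ (M ∪ K)ᶜ).filter (fun q => q.2 ≠ g q.1) with hR
  have hRcard : (k + 1) * (Fintype.card V - 5 - k) ≤ R.card := by
    have h1 : R.card = ∑ x ∈ K, (((M ∪ K)ᶜ).filter (fun y => y ≠ g x)).card := by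
      rw [hR, card_filter, sum_product]
      apply sum_congr rfl
      intro x _
      rw [card_filter]
    rw [h1, ← hKcard]
    rw [← smul_eq_mul]
    apply card_nsmul_le_sum
    intro x _
    have h2 : (((M ∪ K)ᶜ).erase (g x)).card ≤ (((M ∪ K)ᶜ).filter (fun y => y ≠ g x)).card := by
      apply card_le_card
      intro y hy
      obtain ⟨a, b⟩ := mem_erase.mp hy
      exact mem_filter.mpr ⟨b, a⟩
    have h3 := pred_card_le_card_erase (s := (M ∪ K)ᶜ) (a := g x)
    have h4 : ((M ∪ K)ᶜ : Finset V).card = Fintype.card V - (M ∪ K).card := card_compl _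
    have h5 := card_union_le M K
    omega
  set N := R.image (fun q => s(q.1, q.2)) with hN
  have hNcard : N.card = R.card := by
    apply card_image_of_injOn
    rintro ⟨x, y⟩ hxy ⟨x', y'⟩ hxy' heq
    have h1 := mem_product.mp (mem_filter.mp (mem_coe.mp hxy)).1
    have h2 := mem_product.mp (mem_filter.mp (mem_coe.mp hxy')).1
    simp only [Sym2.eq_iff] at heq
    rcases heq with ⟨a, b⟩ | ⟨a, b⟩
    · simp only [a, b]
    · exfalso
      have h3 : x ∈ K := h1.1
      have h4 : y' ∉ M ∪ K := mem_compl.mp h2.2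
      exact h4 (mem_union_right _ (a ▸ h3))
  have hNp : N ⊆ prs V := by
    intro e he
    obtain ⟨⟨x, y⟩, hq, rfl⟩ := mem_image.mp he
    have h1 := mem_product.mp (mem_filter.mp hq).1
    rw [mem_prs, Sym2.mk_isDiag_iff]
    intro h
    have h4 : y ∉ M ∪ K := mem_compl.mp h1.2
    have h5 : x = y := h
    have h6 : x ∈ K := h1.1
    exact h4 (mem_union_right _ (h5 ▸ h6))
  have hNM : ∀ e ∈ N, ∀ x ∈ e, x ∉ M := by
    intro e he z hz
    obtain ⟨⟨x, y⟩, hq, rfl⟩ := mem_image.mp he
    have h1 := mem_product.mp (mem_filter.mp hq).1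
    have h4 : y ∉ M ∪ K := mem_compl.mp h1.2
    rcases Sym2.mem_iff.mp hz with rfl | rfl
    · exact hKM _ h1.1
    · exact fun h => h4 (mem_union_left _ h)
  have hNf : ∀ e ∈ N, e.map g ≠ e := by
    intro e he
    obtain ⟨⟨x, y⟩, hq, rfl⟩ := mem_image.mp he
    obtain ⟨hq1, hq2⟩ := mem_filter.mp hq
    have h1 := mem_product.mp hq1
    rw [Sym2.map_mk]
    intro h
    rcases Sym2.eq_iff.mp h with ⟨a, _⟩ | ⟨a, _⟩
    · exact hKg x h1.1 a
    · exact hq2 a.symm
  -- a linear order on the pairs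
  let ρ : Sym2 V → ℕ := fun e => (Fintype.equivFin (Sym2 V) e : ℕ)
  have hρinj : Function.Injective ρ := by
    intro a b hab
    exact (Fintype.equivFin (Sym2 V)).injective (Fin.ext hab)
  have hρlt : ∀ e, ρ e < Fintype.card (Sym2 V) := fun e => (Fintype.equivFin (Sym2 V) e).2
  have hsplit : N.card ≤ (N.filter (fun e => ρ (e.map g) < ρ e)).card +
      (N.filter (fun e => ρ e < ρ (e.map g))).card := by
    rw [← card_union_of_disjoint]
    · apply card_le_card
      intro e he
      have hne : ρ (e.map g) ≠ ρ e := fun h => hNf e he (hρinj h)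
      rw [mem_union, mem_filter, mem_filter]
      rcases Nat.lt_or_gt_of_ne hne with h | h
      · exact Or.inl ⟨he, h⟩
      · exact Or.inr ⟨he, h⟩
    · rw [disjoint_left]
      intro e he he'
      have := (mem_filter.mp he).2
      have := (mem_filter.mp he').2
      omega
  rcases Nat.lt_or_ge (N.filter (fun e => ρ (e.map g) < ρ e)).card p with hlt | hge
  · have h1 : p ≤ (N.filter (fun e => ρ e < ρ (e.map g))).card := by omega
    refine le_trans (Nat.mul_le_mul_left _ (Nat.pow_le_pow_right (by norm_num) h1)) ?_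
    refine emb_det M g hinj _ ((filter_subset _ _).trans hNp)
      (fun e he => hNM e (mem_filter.mp he).1) (fun e => Fintype.card (Sym2 V) - ρ e) ?_
    intro e he
    have h2 := (mem_filter.mp he).2
    have h3 := hρlt (e.map g)
    show Fintype.card (Sym2 V) - ρ (e.map g) < Fintype.card (Sym2 V) - ρ e
    omega
  · refine le_trans (Nat.mul_le_mul_left _ (Nat.pow_le_pow_right (by norm_num) hge)) ?_
    exact emb_det M g hinj _ ((filter_subset _ _).trans hNp)
      (fun e he => hNM e (mem_filter.mp he).1) ρ (fun e he => (mem_filter.mp he).2)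

/-- Few graphs violate (P1). -/
theorem card_bad1 (k p : ℕ) (hp : 2 * p ≤ (k + 1) * (Fintype.card V - 5 - k)) :
    (univ.filter (fun G : SimpleGraph V => ¬ P1 G k)).card * 2 ^ p ≤
      2 ^ Fintype.card V * Fintype.card V ^ Fintype.card V * 2 ^ (Fintype.card V).choose 2 := by
  set I : Finset (Finset V × (V → V)) := univ.filter (fun q => q.1.card = 3 ∧
    (∀ x y, x ∉ q.1 → y ∉ q.1 → q.2 x = q.2 y → x = y) ∧
    k < (univ.filter (fun x => x ∉ q.1 ∧ q.2 x ≠ x)).card) with hI
  have hsub : univ.filter (fun G : SimpleGraph V => ¬ P1 G k) ⊆ I.biUnion (fun q => emb q.1 q.2) := by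
    intro G hG
    have h1 := (mem_filter.mp hG).2
    unfold P1 at h1
    push Not at h1
    obtain ⟨M, hM, g, hg1, hg2, hg3⟩ := h1
    exact mem_biUnion.mpr ⟨(M, g), mem_filter.mpr ⟨mem_univ _, hM, hg1, hg3⟩,
      mem_filter.mpr ⟨mem_univ _, hg2⟩⟩
  have hIc : I.card ≤ 2 ^ Fintype.card V * Fintype.card V ^ Fintype.card V := by
    refine (card_le_univ _).trans ?_
    rw [Fintype.card_prod, Fintype.card_finset, Fintype.card_fun]
  calc (univ.filter (fun G : SimpleGraph V => ¬ P1 G k)).card * 2 ^ p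
      ≤ (∑ q ∈ I, (emb q.1 q.2).card) * 2 ^ p :=
        Nat.mul_le_mul_right _ ((card_le_card hsub).trans card_biUnion_le)
    _ = ∑ q ∈ I, (emb q.1 q.2).card * 2 ^ p := by rw [sum_mul]
    _ ≤ ∑ q ∈ I, 2 ^ (Fintype.card V).choose 2 := by
        apply sum_le_sum
        intro q hq
        obtain ⟨_, h1, h2, h3⟩ := mem_filter.mp hq
        exact emb_card q.1 h1 q.2 h2 k p h3 hp
    _ = I.card * 2 ^ (Fintype.card V).choose 2 := by rw [sum_const, smul_eq_mul]
    _ ≤ _ := Nat.mul_le_mul_right _ hIc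

end Pool.Agent.Cnt
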