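import Mathlib

/-!
Numerical inequalities for the counting theorem (MP_552896_co).
-/

set_option autoImplicit false

namespace Pool.Agent.Cnt

lemma exists_log_small : ∃ n₀ : ℕ, ∀ n : ℕ, n₀ ≤ n →
    Real.log n ≤ (n : ℝ) / 1600 * Real.log 2 := by
  have h := Real.isLittleO_log_id_atTop
  have hc : (0 : ℝ) < Real.log 2 / 1600 := by
    have := Real.log_pos (by norm_num : (1 : ℝ) < 2)
    positivity
  have h1 := h.bound hc
  rw [Filter.eventually_atTop] at h1
  obtain ⟨a, ha⟩ := h1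
  refine ⟨max 1 ⌈a⌉₊, fun n hn => ?_⟩
  have h2 : a ≤ (n : ℝ) := (Nat.le_ceil a).trans (by exact_mod_cast (le_max_right _ _).trans hn)
  have h3 := ha n h2
  have h4 : (1 : ℝ) ≤ n := by exact_mod_cast (le_max_left _ _).trans hn
  rw [Real.norm_of_nonneg (Real.log_nonneg h4)] at h3
  simp only [id, Real.norm_of_nonneg (by linarith : (0 : ℝ) ≤ n)] at h3
  linarith

lemma num1 : ∃ n₀ : ℕ, ∀ n : ℕ, n₀ ≤ n → ∃ p : ℕ,
    2 * p ≤ (3 * n / 20 + 1) * (n - 5 - 3 * n / 20) ∧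
    2 ^ n * n ^ n * 2 ^ (n ^ 2 / 16 + 1) ≤ 2 ^ p := by
  obtain ⟨n₀, hn₀⟩ := exists_log_small
  refine ⟨max n₀ 3000, fun n hn => ⟨(3 * n / 20 + 1) * (n - 5 - 3 * n / 20) / 2, by omega, ?_⟩⟩
  have hn1 : 3000 ≤ n := (le_max_right _ _).trans hn
  have hlog := hn₀ n ((le_max_left _ _).trans hn)
  have hn2 : (3000 : ℝ) ≤ n := by exact_mod_cast hn1
  have hl2 : 0 < Real.log 2 := Real.log_pos (by norm_num)
  set k := 3 * n / 20 with hk
  set p := (k + 1) * (n - 5 - k) / 2 with hp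
  set q := n ^ 2 / 16 with hq
  have hk1 : (3 * (n : ℝ)) / 20 ≤ (k : ℝ) + 1 := by
    have : 3 * n < 20 * (k + 1) := by omega
    have : (3 * (n : ℝ)) < 20 * ((k : ℝ) + 1) := by exact_mod_cast this
    linarith
  have hk2 : (k : ℝ) ≤ 3 * n / 20 := by
    have : 20 * k ≤ 3 * n := by omega
    have : 20 * (k : ℝ) ≤ 3 * n := by exact_mod_cast this
    linarith
  have hsub : ((n - 5 - k : ℕ) : ℝ) = (n : ℝ) - 5 - k := by
    rw [Nat.cast_sub (by omega), Nat.cast_sub (by omega)]; norm_num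
  have hp1 : ((k : ℝ) + 1) * ((n : ℝ) - 5 - k) - 1 ≤ 2 * (p : ℝ) := by
    have h1 : (k + 1) * (n - 5 - k) < 2 * (p + 1) := by omega
    have h2 : (((k + 1) * (n - 5 - k) : ℕ) : ℝ) < 2 * ((p : ℝ) + 1) := by exact_mod_cast h1
    have h3 : (k + 1) * (n - 5 - k) ≤ 2 * p + 1 := by omega
    have h4 : (((k + 1) * (n - 5 - k) : ℕ) : ℝ) ≤ 2 * (p : ℝ) + 1 := by exact_mod_cast h3
    rw [Nat.cast_mul, hsub] at h4
    push_cast at h4
    linarith
  have hq1 : (q : ℝ) ≤ (n : ℝ) ^ 2 / 16 := by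
    have : 16 * q ≤ n ^ 2 := by omega
    have : 16 * (q : ℝ) ≤ (n : ℝ) ^ 2 := by exact_mod_cast this
    linarith
  have hprod : (3 * (n : ℝ)) / 20 * (17 * n / 20 - 5) ≤ ((k : ℝ) + 1) * ((n : ℝ) - 5 - k) := by
    apply mul_le_mul hk1 (by linarith) (by linarith) (by positivity)
  have hn0 : (0 : ℝ) < n := by linarith
  have key : Real.log ((2 : ℝ) ^ n * n ^ n * 2 ^ (q + 1)) ≤ Real.log (2 ^ p) := by
    rw [Real.log_mul (by positivity) (by positivity), Real.log_mul (by positivity) (by positivity),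
      Real.log_pow, Real.log_pow, Real.log_pow, Real.log_pow]
    have h5 : (n : ℝ) * Real.log n ≤ n * ((n : ℝ) / 1600 * Real.log 2) :=
      mul_le_mul_of_nonneg_left hlog hn0.le
    have h6 : (n : ℝ) + n * n / 1600 + (q + 1) ≤ p := by nlinarith
    have h7 := mul_le_mul_of_nonneg_right h6 hl2.le
    push_cast
    nlinarith
  have h8 : (2 : ℝ) ^ n * n ^ n * 2 ^ (q + 1) ≤ 2 ^ p :=
    (Real.log_le_log_iff (by positivity) (by positivity)).mp key
  exact_mod_cast h8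

lemma num2 : ∃ n₀ : ℕ, ∀ n : ℕ, n₀ ≤ n → ∀ S : ℕ,
    S * 6 ^ (n - (3 * n / 20 + 3)) ≤ 7 ^ n →
    2 ^ n * n ^ n * S ^ ((n - 2) / 4) * 2 ^ ((n - (n - 2) / 4).choose 2 + (n - 2) / 4) *
      2 ^ (n ^ 2 / 16 + 1) ≤ 2 ^ (n.choose 2) := by
  obtain ⟨n₀, hn₀⟩ := exists_log_small
  refine ⟨max n₀ 3000, fun n hn S hS => ?_⟩
  have hn1 : 3000 ≤ n := (le_max_right _ _).trans hn
  have hlog := hn₀ n ((le_max_left _ _).trans hn)
  have hn2 : (3000 : ℝ) ≤ n := by exact_mod_cast hn1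
  have hl2 : 0 < Real.log 2 := Real.log_pos (by norm_num)
  set k := 3 * n / 20 + 3 with hk
  set t := (n - 2) / 4 with ht
  set q := n ^ 2 / 16 with hq
  rcases Nat.eq_zero_or_pos S with hS0 | hS0
  · rw [hS0, zero_pow (by omega)]
    simp
  have hn0 : (0 : ℝ) < n := by linarith
  have hSr : (0 : ℝ) < S := by exact_mod_cast hS0
  have hk2 : (k : ℝ) ≤ 3 * n / 20 + 3 := by
    have : 20 * k ≤ 3 * n + 60 := by omega
    have : 20 * (k : ℝ) ≤ 3 * n + 60 := by exact_mod_cast this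
    linarith
  have ht1 : (t : ℝ) ≤ n / 4 := by
    have : 4 * t ≤ n := by omega
    have : 4 * (t : ℝ) ≤ n := by exact_mod_cast this
    linarith
  have ht2 : ((n : ℝ) - 5) / 4 ≤ t := by
    have : n ≤ 4 * t + 5 := by omega
    have : (n : ℝ) ≤ 4 * t + 5 := by exact_mod_cast this
    linarith
  have hq1 : (q : ℝ) ≤ (n : ℝ) ^ 2 / 16 := by
    have : 16 * q ≤ n ^ 2 := by omega
    have : 16 * (q : ℝ) ≤ (n : ℝ) ^ 2 := by exact_mod_cast this
    linarith
  have hnt : ((n - t : ℕ) : ℝ) = (n : ℝ) - t := Nat.cast_sub (by omega)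
  have hch1 : (((n - t).choose 2 : ℕ) : ℝ) ≤ ((n : ℝ) - t) ^ 2 / 2 := by
    rw [Nat.cast_choose_two, hnt]
    nlinarith
  have hch2 : ((n.choose 2 : ℕ) : ℝ) = (n : ℝ) * (n - 1) / 2 := Nat.cast_choose_two ℝ n
  -- numerical logarithms
  have hl76 : Real.log 7 ≤ Real.log 6 + 9 / 40 * Real.log 2 := by
    have h1 : Real.log ((7 : ℝ) ^ 40) ≤ Real.log (6 ^ 40 * 2 ^ 9) :=
      Real.log_le_log (by positivity) (by norm_num)
    rw [Real.log_mul (by positivity) (by positivity), Real.log_pow, Real.log_pow,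
      Real.log_pow] at h1
    push_cast at h1
    linarith
  have hl6 : Real.log 6 ≤ 13 / 5 * Real.log 2 := by
    have h1 : Real.log ((6 : ℝ) ^ 5) ≤ Real.log (2 ^ 13) :=
      Real.log_le_log (by positivity) (by norm_num)
    rw [Real.log_pow, Real.log_pow] at h1
    push_cast at h1
    linarith
  have hl6p : 0 < Real.log 6 := Real.log_pos (by norm_num)
  have hkn : ((n - k : ℕ) : ℝ) = (n : ℝ) - k := Nat.cast_sub (by omega)
  have hlS : Real.log S ≤ (123 / 200 * n + 39 / 5) * Real.log 2 := by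
    have h1 : Real.log ((S : ℝ) * 6 ^ (n - k)) ≤ Real.log (7 ^ n) :=
      Real.log_le_log (by positivity) (by exact_mod_cast hS)
    rw [Real.log_mul (by positivity) (by positivity), Real.log_pow, Real.log_pow, hkn] at h1
    have h2 : (n : ℝ) * Real.log 7 ≤ n * (Real.log 6 + 9 / 40 * Real.log 2) :=
      mul_le_mul_of_nonneg_left hl76 hn0.le
    have h3 : (k : ℝ) * Real.log 6 ≤ (3 * n / 20 + 3) * (13 / 5 * Real.log 2) :=
      mul_le_mul hk2 hl6 hl6p.le (by positivity)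
    nlinarith
  have htS : (t : ℝ) * Real.log S ≤ n / 4 * ((123 / 200 * n + 39 / 5) * Real.log 2) := by
    have h1 : 0 ≤ Real.log S := Real.log_nonneg (by exact_mod_cast hS0)
    exact mul_le_mul ht1 hlS h1 (by positivity)
  have key : Real.log ((2 : ℝ) ^ n * n ^ n * S ^ t * 2 ^ ((n - t).choose 2 + t) * 2 ^ (q + 1)) ≤
      Real.log (2 ^ (n.choose 2)) := by
    rw [Real.log_mul (by positivity) (by positivity), Real.log_mul (by positivity) (by positivity),
      Real.log_mul (by positivity) (by positivity), Real.log_mul (by positivity) (by positivity),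
      Real.log_pow, Real.log_pow, Real.log_pow, Real.log_pow, Real.log_pow, Real.log_pow]
    have h5 : (n : ℝ) * Real.log n ≤ n * ((n : ℝ) / 1600 * Real.log 2) :=
      mul_le_mul_of_nonneg_left hlog hn0.le
    have h6 : ((n : ℝ) - t) ^ 2 ≤ ((3 * n + 5) / 4) ^ 2 := by
      apply pow_le_pow_left₀ (by linarith) (by linarith)
    have h7 : (n : ℝ) + n * n / 1600 + n / 4 * (123 / 200 * n + 39 / 5) +
        (((n - t).choose 2 : ℕ) + t) + (q + 1) ≤ (n.choose 2 : ℕ) := by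
      rw [hch2]
      nlinarith
    have h8 := mul_le_mul_of_nonneg_right h7 hl2.le
    push_cast
    nlinarith
  have h9 : (2 : ℝ) ^ n * n ^ n * S ^ t * 2 ^ ((n - t).choose 2 + t) * 2 ^ (q + 1) ≤
      2 ^ (n.choose 2) :=
    (Real.log_le_log_iff (by positivity) (by positivity)).mp key
  exact_mod_cast h9

end Pool.Agent.Cnt
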