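import Mathlib
import Pool.Agent.Cnt.Emb

/-!
Few graphs have near twins for half of the vertices (MP_552896_co).
-/

set_option autoImplicit false
set_option linter.unusedSectionVars false

namespace Pool.Agent.Cnt

open Finset Classical

variable {V : Type*} [Fintype V]

/-- The vertices distinguishing `x` and `y`. -/
noncomputable def dset (G : SimpleGraph V) (x y : V) : Finset V :=
  univ.filter (fun z => z ≠ x ∧ z ≠ y ∧ ¬ (G.Adj x z ↔ G.Adj y z))

/-- If half of the vertices have near twins then a quarter of them have near twins outside the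
quarter. -/
lemma exists_T (G : SimpleGraph V) (k t : ℕ) (h : ¬ P2 G k) (ht : 4 * t + 2 ≤ Fintype.card V) :
    ∃ T : Finset V, T.card = t ∧ ∀ x ∈ T, ∃ y, y ∉ T ∧ (dset G x y).card ≤ k := by
  unfold P2 at h
  set W := nt G k with hW
  -- a maximal set of pairwise far vertices of `W`
  have hne : (W.powerset.filter (fun I => ∀ x ∈ I, ∀ y ∈ I, y ≠ x → ¬ ds G x y ≤ k)).Nonempty :=
    ⟨∅, mem_filter.mpr ⟨empty_mem_powerset _, by simp⟩⟩
  obtain ⟨I, hI, hmax⟩ := exists_max_image _ (fun I => I.card) hne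
  obtain ⟨hIW, hIf⟩ := mem_filter.mp hI
  rw [mem_powerset] at hIW
  have h1 : ∀ x ∈ I, ∃ y, y ∉ I ∧ ds G x y ≤ k := by
    intro x hx
    obtain ⟨y, hy, hd⟩ := (mem_filter.mp (hIW hx)).2
    exact ⟨y, fun hyI => hIf x hx y hyI hy hd, hd⟩
  have h2 : ∀ x ∈ W \ I, ∃ y, y ∉ W \ I ∧ ds G x y ≤ k := by
    intro x hx
    obtain ⟨hxW, hxI⟩ := mem_sdiff.mp hx
    by_contra hcon
    push Not at hcon
    have h3 : ∀ y ∈ I, ¬ ds G x y ≤ k := by
      intro y hy
      have := hcon y (fun h => (mem_sdiff.mp h).2 hy)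
      omega
    have h4 : insert x I ∈ W.powerset.filter
        (fun I => ∀ x ∈ I, ∀ y ∈ I, y ≠ x → ¬ ds G x y ≤ k) := by
      refine mem_filter.mpr ⟨mem_powerset.mpr (insert_subset hxW hIW), ?_⟩
      intro u hu v hv hvu
      rcases mem_insert.mp hu with hu1 | hu1
      · rcases mem_insert.mp hv with hv1 | hv1
        · exact absurd (hv1.trans hu1.symm) hvu
        · rw [hu1]; exact h3 v hv1
      · rcases mem_insert.mp hv with hv1 | hv1
        · rw [hv1, ds_comm]; exact h3 u hu1
        · exact hIf u hu1 v hv1 hvu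
    have h5 := hmax _ h4
    rw [card_insert_of_notMem hxI] at h5
    omega
  have h6 : (W \ I).card + I.card = W.card := card_sdiff_add_card_eq_card hIW
  have h7 : t ≤ I.card ∨ t ≤ (W \ I).card := by omega
  rcases h7 with h7 | h7
  · obtain ⟨T, hT, hTc⟩ := exists_subset_card_eq h7
    refine ⟨T, hTc, fun x hx => ?_⟩
    obtain ⟨y, hy, hd⟩ := h1 x (hT hx)
    exact ⟨y, fun h => hy (hT h), hd⟩
  · obtain ⟨T, hT, hTc⟩ := exists_subset_card_eq h7
    refine ⟨T, hTc, fun x hx => ?_⟩
    obtain ⟨y, hy, hd⟩ := h2 x (hT hx)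
    exact ⟨y, fun h => hy (hT h), hd⟩

/-- The graphs with prescribed near twins and prescribed differences. -/
noncomputable def fam (T : Finset V) (y : V → V) (Δ : {x // x ∈ T} → Finset V) :
    Finset (SimpleGraph V) :=
  univ.filter (fun G => ∀ (x : V) (hx : x ∈ T), y x ∉ T ∧ dset G x (y x) = Δ ⟨x, hx⟩)

lemma fam_card (T : Finset V) (y : V → V) (Δ : {x // x ∈ T} → Finset V) :
    (fam T y Δ).card ≤ 2 ^ ((Fintype.card V - T.card).choose 2 + T.card) := by
  set P := (prs V).filter (fun e => (∃ x ∈ e, x ∈ T) ∧ ∀ x ∈ T, e ≠ s(x, y x)) with hP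
  refine (card_le_of_det' _ P ?_).trans (Nat.pow_le_pow_right (by norm_num) ?_)
  · intro G hG G' hG' heq
    have hG1 := (mem_filter.mp hG).2
    have hG2 := (mem_filter.mp hG').2
    have ha : ∀ u v, u ∉ T → v ∉ T → u ≠ v → (G.Adj u v ↔ G'.Adj u v) := by
      intro u v hu hv huv
      refine heq s(u, v) (mem_prs.mpr (by rw [Sym2.mk_isDiag_iff]; exact huv)) ?_
      intro h
      obtain ⟨x, hx, hxT⟩ := (mem_filter.mp h).2.1
      rcases Sym2.mem_iff.mp hx with rfl | rfl
      · exact hu hxT
      · exact hv hxT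
    have hb : ∀ x ∈ T, (G.Adj x (y x) ↔ G'.Adj x (y x)) := by
      intro x hx
      refine heq s(x, y x) (mem_prs.mpr ?_) ?_
      · rw [Sym2.mk_isDiag_iff]
        intro h
        exact (hG1 x hx).1 (h ▸ hx)
      · intro h
        exact (mem_filter.mp h).2.2 x hx rfl
    have hrel : ∀ x ∈ T, ∀ z, z ≠ x → z ≠ y x →
        ((G.Adj x z ↔ G.Adj (y x) z) ↔ (G'.Adj x z ↔ G'.Adj (y x) z)) := by
      intro x hx z hz1 hz2
      have e1 : z ∈ dset G x (y x) ↔ z ∈ dset G' x (y x) := by
        rw [(hG1 x hx).2, (hG2 x hx).2]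
      simp only [dset, mem_filter, mem_univ, true_and, hz1, hz2, ne_eq, not_false_eq_true] at e1
      exact not_iff_not.mp e1
    have hc : ∀ x ∈ T, ∀ z, z ∉ T → (G.Adj x z ↔ G'.Adj x z) := by
      intro x hx z hz
      by_cases hzy : z = y x
      · rw [hzy]; exact hb x hx
      · have h1 := hrel x hx z (fun h => hz (h ▸ hx)) hzy
        have h2 := ha (y x) z (hG1 x hx).1 hz (Ne.symm hzy)
        tauto
    have hd : ∀ x ∈ T, ∀ x' ∈ T, x ≠ x' → (G.Adj x x' ↔ G'.Adj x x') := by
      intro x hx x' hx' hne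
      have h1 := hrel x hx x' (Ne.symm hne) (fun h => (hG1 x hx).1 (h ▸ hx'))
      have h2 := hc x' hx' (y x) (hG1 x hx).1
      rw [G.adj_comm, G'.adj_comm] at h2
      tauto
    ext u v
    by_cases huv : u = v
    · subst huv; simp
    by_cases hu : u ∈ T <;> by_cases hv : v ∈ T
    · exact hd u hu v hv huv
    · exact hc u hu v hv
    · rw [G.adj_comm, G'.adj_comm]; exact hc v hv u hu
    · exact ha u v hu hv huv
  · have hsub : prs V \ P ⊆ (Tᶜ).offDiag.image (fun q => s(q.1, q.2)) ∪
        T.image (fun x => s(x, y x)) := by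
      intro e he
      obtain ⟨he1, he2⟩ := mem_sdiff.mp he
      by_cases hT : ∃ x ∈ e, x ∈ T
      · by_cases hy : ∀ x ∈ T, e ≠ s(x, y x)
        · exact absurd (mem_filter.mpr ⟨he1, hT, hy⟩) he2
        · push Not at hy
          obtain ⟨x, hx, hxe⟩ := hy
          exact mem_union_right _ (mem_image.mpr ⟨x, hx, hxe.symm⟩)
      · push Not at hT
        apply mem_union_left
        have hnd := mem_prs.mp he1
        induction e using Sym2.ind with
        | _ a b =>
          refine mem_image.mpr ⟨(a, b), mem_offDiag.mpr ⟨mem_compl.mpr (hT a (Sym2.mem_mk_left a b)),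
            mem_compl.mpr (hT b (Sym2.mem_mk_right a b)), ?_⟩, rfl⟩
          rw [Sym2.mk_isDiag_iff] at hnd
          exact hnd
    refine (card_le_card hsub).trans ((card_union_le _ _).trans ?_)
    have h1 : ((Tᶜ).offDiag.image (fun q : V × V => s(q.1, q.2))).card =
        (Fintype.card V - T.card).choose 2 := by
      rw [← card_compl]
      exact Sym2.card_image_offDiag _
    rw [h1]
    exact Nat.add_le_add_left card_image_le _

/-- The small sets. -/
noncomputable def sm (V : Type*) [Fintype V] (k : ℕ) : Finset (Finset V) :=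
  univ.filter (fun s => s.card ≤ k)

lemma sm_card (k : ℕ) (hk : k ≤ Fintype.card V) :
    (sm V k).card * 6 ^ (Fintype.card V - k) ≤ 7 ^ Fintype.card V := by
  have h := Finset.sum_pow_mul_eq_add_pow (1 : ℕ) 6 (univ : Finset V)
  rw [card_univ] at h
  calc (sm V k).card * 6 ^ (Fintype.card V - k)
      = ∑ _s ∈ sm V k, 6 ^ (Fintype.card V - k) := by rw [sum_const, smul_eq_mul]
    _ ≤ ∑ s ∈ sm V k, 1 ^ s.card * 6 ^ (Fintype.card V - s.card) := by
        apply sum_le_sum
        intro s hs
        rw [one_pow, one_mul]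
        apply Nat.pow_le_pow_right (by norm_num)
        have := (mem_filter.mp hs).2
        omega
    _ ≤ ∑ s ∈ (univ : Finset V).powerset, 1 ^ s.card * 6 ^ (Fintype.card V - s.card) := by
        apply sum_le_sum_of_subset
        intro s _
        exact mem_powerset.mpr (subset_univ _)
    _ = (1 + 6) ^ Fintype.card V := h
    _ = 7 ^ Fintype.card V := by norm_num

/-- Few graphs violate (P2). -/
theorem card_bad2 (k t : ℕ) (ht : 4 * t + 2 ≤ Fintype.card V) :
    (univ.filter (fun G : SimpleGraph V => ¬ P2 G k)).card ≤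
      2 ^ Fintype.card V * Fintype.card V ^ Fintype.card V * (sm V k).card ^ t *
        2 ^ ((Fintype.card V - t).choose 2 + t) := by
  have hsub : univ.filter (fun G : SimpleGraph V => ¬ P2 G k) ⊆
      (powersetCard t (univ : Finset V)).biUnion (fun T => (univ : Finset (V → V)).biUnion
        (fun y => (Fintype.piFinset (fun _ : {x // x ∈ T} => sm V k)).biUnion
          (fun Δ => fam T y Δ))) := by
    intro G hG
    obtain ⟨T, hT, hy⟩ := exists_T G k t (mem_filter.mp hG).2 ht
    have hy' : ∀ x, ∃ y, x ∈ T → y ∉ T ∧ (dset G x y).card ≤ k := by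
      intro x
      by_cases hx : x ∈ T
      · obtain ⟨y, h⟩ := hy x hx
        exact ⟨y, fun _ => h⟩
      · exact ⟨x, fun h => absurd h hx⟩
    choose y hyT using hy'
    refine mem_biUnion.mpr ⟨T, mem_powersetCard.mpr ⟨subset_univ _, hT⟩,
      mem_biUnion.mpr ⟨y, mem_univ _, mem_biUnion.mpr ⟨fun x => dset G x.1 (y x.1), ?_, ?_⟩⟩⟩
    · rw [Fintype.mem_piFinset]
      intro x
      exact mem_filter.mpr ⟨mem_univ _, (hyT x.1 x.2).2⟩
    · exact mem_filter.mpr ⟨mem_univ _, fun x hx => ⟨(hyT x hx).1, rfl⟩⟩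
  refine (card_le_card hsub).trans ?_
  have hT : ∀ T ∈ powersetCard t (univ : Finset V), ((univ : Finset (V → V)).biUnion
        (fun y => (Fintype.piFinset (fun _ : {x // x ∈ T} => sm V k)).biUnion
          (fun Δ => fam T y Δ))).card ≤ Fintype.card V ^ Fintype.card V * (sm V k).card ^ t *
        2 ^ ((Fintype.card V - t).choose 2 + t) := by
    intro T hTm
    have hTc : T.card = t := (mem_powersetCard.mp hTm).2
    have hy : ∀ y ∈ (univ : Finset (V → V)),
        ((Fintype.piFinset (fun _ : {x // x ∈ T} => sm V k)).biUnion (fun Δ => fam T y Δ)).card ≤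
          (sm V k).card ^ t * 2 ^ ((Fintype.card V - t).choose 2 + t) := by
      intro y _
      have hΔ : ∀ Δ ∈ Fintype.piFinset (fun _ : {x // x ∈ T} => sm V k),
          (fam T y Δ).card ≤ 2 ^ ((Fintype.card V - t).choose 2 + t) := by
        intro Δ _
        rw [← hTc]
        exact fam_card T y Δ
      refine (card_biUnion_le_card_mul _ _ _ hΔ).trans ?_
      rw [Fintype.card_piFinset, prod_const, card_univ, Fintype.card_coe, hTc]
    refine (card_biUnion_le_card_mul _ _ _ hy).trans ?_
    rw [card_univ, Fintype.card_fun, mul_assoc]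
  refine (card_biUnion_le_card_mul _ _ _ hT).trans ?_
  rw [card_powersetCard, card_univ, mul_assoc, mul_assoc, mul_assoc]
  exact Nat.mul_le_mul_right _ (Nat.choose_le_two_pow _ _)

end Pool.Agent.Cnt
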