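import Mathlib
import Pool.Agent.Cnt.Struct
import Pool.Agent.Cnt.Emb
import Pool.Agent.Cnt.Twin
import Pool.Agent.Cnt.Num

/-!
The counting theorem (MP_552896_co): the proportion of the graphs on `n` vertices whose truncated
clique lattice is not reconstructible is at most `2 ^ (- n ^ 2 / 16)`.
-/

set_option autoImplicit false

namespace Pool.Agent.Cnt

open Finset Classical

/-- There are at least `2 ^ (n choose 2)` graphs. -/
lemma two_pow_le_card (V : Type*) [Fintype V] :
    2 ^ (Fintype.card V).choose 2 ≤ (univ : Finset (SimpleGraph V)).card := by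
  rw [← card_prs, ← card_powerset]
  refine card_le_card_of_injOn (fun E => SimpleGraph.fromEdgeSet (E : Set (Sym2 V)))
    (fun _ _ => mem_coe.mpr (mem_univ _)) ?_
  intro E hE E' hE' heq
  have hE1 := mem_powerset.mp (mem_coe.mp hE)
  have hE2 := mem_powerset.mp (mem_coe.mp hE')
  ext e
  have h1 := congrArg SimpleGraph.edgeSet heq
  simp only [SimpleGraph.edgeSet_fromEdgeSet] at h1
  have h2 : e ∈ ((E : Set (Sym2 V)) \ Sym2.diagSet) ↔ e ∈ ((E' : Set (Sym2 V)) \ Sym2.diagSet) := by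
    rw [h1]
  constructor
  · intro he
    exact mem_coe.mp (h2.mp ⟨mem_coe.mpr he, mem_prs.mp (hE1 he)⟩).1
  · intro he
    exact mem_coe.mp (h2.mpr ⟨mem_coe.mpr he, mem_prs.mp (hE2 he)⟩).1

lemma bad_le {V : Type*} [Fintype V] (k : ℕ) (R : SimpleGraph V → Prop)
    (hR : ∀ G, P1 G k → P2 G (k + 3) → R G) :
    Nat.card {G : SimpleGraph V // ¬ R G} ≤
      (univ.filter (fun G : SimpleGraph V => ¬ P1 G k)).card +
      (univ.filter (fun G : SimpleGraph V => ¬ P2 G (k + 3))).card := by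
  rw [Nat.card_eq_fintype_card, Fintype.card_subtype]
  refine (card_le_card ?_).trans (card_union_le _ _)
  intro G hG
  have h1 := (mem_filter.mp hG).2
  rw [mem_union, mem_filter, mem_filter]
  by_cases h2 : P1 G k
  · by_cases h3 : P2 G (k + 3)
    · exact absurd (hR G h2 h3) h1
    · exact Or.inr ⟨mem_univ _, h3⟩
  · exact Or.inl ⟨mem_univ _, h2⟩

theorem count : ∃ n₀ : ℕ, ∀ (V : Type) [Fintype V], n₀ ≤ Fintype.card V →
    ∀ R : SimpleGraph V → Prop,
    (∀ G, P1 G (3 * Fintype.card V / 20) → P2 G (3 * Fintype.card V / 20 + 3) → R G) →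
    Nat.card {G : SimpleGraph V // ¬ R G} * 2 ^ (Fintype.card V ^ 2 / 16) ≤
      Nat.card (SimpleGraph V) := by
  obtain ⟨a, ha⟩ := num1
  obtain ⟨b, hb⟩ := num2
  refine ⟨max (max a b) 100, ?_⟩
  intro V _ hn R hR
  have htot := two_pow_le_card V
  have hbad := bad_le _ R hR
  rw [Nat.card_eq_fintype_card (α := SimpleGraph V), ← card_univ (α := SimpleGraph V)]
  refine le_trans ?_ htot
  have hb1' := fun p => card_bad1 (V := V) (3 * Fintype.card V / 20) p
  have hb2' := card_bad2 (V := V) (3 * Fintype.card V / 20 + 3) ((Fintype.card V - 2) / 4)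
  have hsm := sm_card (V := V) (3 * Fintype.card V / 20 + 3)
  generalize Fintype.card V = n at *
  have hn1 : 100 ≤ n := (le_max_right _ _).trans hn
  obtain ⟨p, hp1, hp2⟩ := ha n (((le_max_left _ _).trans (le_max_left _ _)).trans hn)
  have hb' := hb n (((le_max_right _ _).trans (le_max_left _ _)).trans hn)
  have h1 := hb1' p hp1
  have h2 := hb2' (by omega)
  have h3 := hb' _ (hsm (by omega))
  generalize (univ.filter (fun G : SimpleGraph V => ¬ P1 G (3 * n / 20))).card = x at *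
  generalize (univ.filter (fun G : SimpleGraph V => ¬ P2 G (3 * n / 20 + 3))).card = y at *
  generalize Nat.card {G : SimpleGraph V // ¬ R G} = z at *
  have hx : x * 2 ^ (n ^ 2 / 16 + 1) ≤ 2 ^ n.choose 2 := by
    have h4 : 0 < 2 ^ n * n ^ n := by positivity
    apply Nat.le_of_mul_le_mul_left _ h4
    calc 2 ^ n * n ^ n * (x * 2 ^ (n ^ 2 / 16 + 1))
        = x * (2 ^ n * n ^ n * 2 ^ (n ^ 2 / 16 + 1)) := by ring
      _ ≤ x * 2 ^ p := Nat.mul_le_mul_left _ hp2
      _ ≤ 2 ^ n * n ^ n * 2 ^ n.choose 2 := h1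
  have hy : y * 2 ^ (n ^ 2 / 16 + 1) ≤ 2 ^ n.choose 2 :=
    (Nat.mul_le_mul_right _ h2).trans h3
  rw [pow_succ] at hx hy
  have h4 := Nat.mul_le_mul_right (2 ^ (n ^ 2 / 16)) hbad
  rw [add_mul] at h4
  generalize 2 ^ (n ^ 2 / 16) = w at *
  have h5 : x * (w * 2) = 2 * (x * w) := by ring
  have h6 : y * (w * 2) = 2 * (y * w) := by ring
  omega

/-- The counting theorem. -/
theorem main : ∃ n₀ : ℕ, ∀ n : ℕ, n₀ ≤ n →
    Nat.card {G : SimpleGraph (Fin n) //
      ¬ ∀ (W : Type) [Fintype W] (H : SimpleGraph W) (f : Fin n ≃ W),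
        (∀ v : Fin n,
          Nonempty ({s : Finset (Fin n) // s.Nonempty ∧ G.IsClique (s : Set (Fin n)) ∧ v ∉ s} ≃o
            {t : Finset W // t.Nonempty ∧ H.IsClique (t : Set W) ∧ f v ∉ t})) →
        Nonempty ({s : Finset (Fin n) // s.Nonempty ∧ G.IsClique (s : Set (Fin n))} ≃o
          {t : Finset W // t.Nonempty ∧ H.IsClique (t : Set W)})} * 2 ^ (n ^ 2 / 16) ≤
      Nat.card (SimpleGraph (Fin n)) := by
  obtain ⟨n₀, hn₀⟩ := count
  refine ⟨n₀, fun n hn => ?_⟩
  have h := hn₀ (Fin n) (by rw [Fintype.card_fin]; exact hn)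
    (fun G => ∀ (W : Type) [Fintype W] (H : SimpleGraph W) (f : Fin n ≃ W),
        (∀ v : Fin n,
          Nonempty ({s : Finset (Fin n) // s.Nonempty ∧ G.IsClique (s : Set (Fin n)) ∧ v ∉ s} ≃o
            {t : Finset W // t.Nonempty ∧ H.IsClique (t : Set W) ∧ f v ∉ t})) →
        Nonempty ({s : Finset (Fin n) // s.Nonempty ∧ G.IsClique (s : Set (Fin n))} ≃o
          {t : Finset W // t.Nonempty ∧ H.IsClique (t : Set W)}))
    (fun G h1 h2 W _ H f hdeck => struct G _ h1 h2 H f hdeck)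
  rw [Fintype.card_fin] at h
  exact h

end Pool.Agent.Cnt
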